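import Mathlib

set_option autoImplicit false

namespace Pool.Agent.Helper33

open Set Filter Topology

/-- The Psi-type space over the isolated points `X0` with one limit point for every `i : ι`,
whose neighbourhoods contain all but finitely many points of `M i`. -/
inductive Psi {X0 ι : Type} (M : ι → Set X0) : Type
  | pt (x : X0) : Psi M
  | lim (i : ι) : Psi M

namespace Psi

variable {X0 ι : Type} {M : ι → Set X0}

instance : TopologicalSpace (Psi M) where
  IsOpen U := ∀ i : ι, (lim i : Psi M) ∈ U → {x | x ∈ M i ∧ (pt x : Psi M) ∉ U}.Finite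
  isOpen_univ := by
    intro i _
    convert! Set.finite_empty
    ext x; simp
  isOpen_inter := by
    intro s t hs ht i hi
    refine ((hs i hi.1).union (ht i hi.2)).subset ?_
    rintro x ⟨hx, hx'⟩
    by_cases h : (pt x : Psi M) ∈ s
    · exact Or.inr ⟨hx, fun h' => hx' ⟨h, h'⟩⟩
    · exact Or.inl ⟨hx, h⟩
  isOpen_sUnion := by
    intro S hS i hi
    obtain ⟨t, ht, hit⟩ := hi
    refine (hS t ht i hit).subset ?_
    rintro x ⟨hx, hx'⟩
    exact ⟨hx, fun h => hx' ⟨t, ht, h⟩⟩

theorem isOpen_def {U : Set (Psi M)} :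
    IsOpen U ↔ ∀ i : ι, (lim i : Psi M) ∈ U → {x | x ∈ M i ∧ (pt x : Psi M) ∉ U}.Finite :=
  Iff.rfl

theorem isOpen_pt (x : X0) : IsOpen ({pt x} : Set (Psi M)) := by
  rw [isOpen_def]
  intro i hi
  simp at hi

/-- Basic neighbourhood of a limit point. -/
def nb (i : ι) (F : Set X0) : Set (Psi M) := insert (lim i) (pt '' (M i \ F))

theorem isOpen_nb (i : ι) {F : Set X0} (hF : (M i ∩ F).Finite) : IsOpen (nb i F : Set (Psi M)) := by
  rw [isOpen_def]
  intro j hj
  have : j = i := by
    simpa [nb] using hj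
  subst this
  refine hF.subset ?_
  rintro x ⟨hx, hx'⟩
  refine ⟨hx, ?_⟩
  by_contra h
  exact hx' (Or.inr ⟨x, ⟨hx, h⟩, rfl⟩)

theorem isClosed_nb (hM : Pairwise fun i j => (M i ∩ M j).Finite) (i : ι) (F : Set X0) :
    IsClosed (nb i F : Set (Psi M)) := by
  rw [← isOpen_compl_iff, isOpen_def]
  intro j hj
  have hji : j ≠ i := by
    rintro rfl
    exact hj (Or.inl rfl)
  refine (hM hji).subset ?_
  rintro x ⟨hx, hx'⟩
  refine ⟨hx, ?_⟩
  simp only [nb, mem_compl_iff, not_not] at hx'
  rcases hx' with h | ⟨y, hy, hyx⟩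
  · cases h
  · cases hyx
    exact hy.1

theorem isClosed_pt (x : X0) : IsClosed ({pt x} : Set (Psi M)) := by
  rw [← isOpen_compl_iff, isOpen_def]
  intro i _
  refine (Set.finite_singleton x).subset ?_
  rintro y ⟨_, hy⟩
  simpa using hy

theorem isClosed_lim (i : ι) : IsClosed ({lim i} : Set (Psi M)) := by
  rw [← isOpen_compl_iff, isOpen_def]
  intro j _
  convert! Set.finite_empty
  ext x; simp

theorem t35 (hM : Pairwise fun i j => (M i ∩ M j).Finite) : T35Space (Psi M) := by
  have h1 : T1Space (Psi M) := by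
    refine ⟨fun z => ?_⟩
    cases z with
    | pt x => exact isClosed_pt x
    | lim i => exact isClosed_lim i
  have h2 : CompletelyRegularSpace (Psi M) := by
    apply CompletelyRegularSpace.of_isTopologicalBasis_clopens
    refine TopologicalSpace.isTopologicalBasis_of_isOpen_of_nhds (fun s hs => hs.isOpen) ?_
    intro z U hz hU
    cases z with
    | pt x =>
      exact ⟨{pt x}, ⟨isClosed_pt x, isOpen_pt x⟩, rfl, by simpa using hz⟩
    | lim i =>
      refine ⟨nb i {x | x ∈ M i ∧ (pt x : Psi M) ∉ U}, ⟨isClosed_nb hM i _, isOpen_nb i ?_⟩,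
        Or.inl rfl, ?_⟩
      · exact ((isOpen_def.1 hU) i hz).subset fun x hx => hx.2
      · rintro w (rfl | ⟨x, hx, rfl⟩)
        · exact hz
        · by_contra h
          exact hx.2 ⟨hx.1, h⟩
  exact { }

end Psi

end Pool.Agent.Helper33
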