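import Mathlib

set_option autoImplicit false

namespace Pool.Agent.Helper33

open Set Filter Topology

/-- Index set of the columns: the Cantor set. -/
abbrev A : Type := ℕ → Bool
/-- Index set of the rows: finite sequences of naturals. -/
abbrev W : Type := List ℕ
/-- The plane. -/
abbrev P : Type := A × W

/-- Initial segment of `β` of length `t+1`. -/
def pre (β : ℕ → ℕ) (t : ℕ) : W := (List.range (t + 1)).map β

/-- The sequence of columns coded by `β`. -/
def dec (β : ℕ → ℕ) (t : ℕ) : A := fun k => Nat.bodd (β (Nat.pair t k))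

theorem pre_length (β : ℕ → ℕ) (t : ℕ) : (pre β t).length = t + 1 := by
  simp [pre]

theorem pre_inj {β β' : ℕ → ℕ} {t t' : ℕ} (h : pre β t = pre β' t') :
    t = t' ∧ ∀ i, i ≤ t → β i = β' i := by
  have h1 : t = t' := by
    have := congrArg List.length h
    rw [pre_length, pre_length] at this
    omega
  subst h1
  refine ⟨rfl, fun i hi => ?_⟩
  unfold pre at h
  rw [List.map_inj_left] at h
  exact h i (List.mem_range.2 (by omega))

theorem pre_injective (β : ℕ → ℕ) : Function.Injective (pre β) := fun _ _ h => (pre_inj h).1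

theorem finite_range_pre_inter {β β' : ℕ → ℕ} (h : β ≠ β') :
    (range (pre β) ∩ range (pre β')).Finite := by
  obtain ⟨n, hn⟩ := Function.ne_iff.1 h
  refine ((Set.finite_Iio n).image (pre β)).subset ?_
  rintro _ ⟨⟨t, rfl⟩, ⟨t', ht'⟩⟩
  refine ⟨t, ?_, rfl⟩
  by_contra hlt
  obtain ⟨h1, h2⟩ := pre_inj ht'.symm
  exact hn (h2 n (by simpa using hlt))

/-- Column. -/
def col (a : A) : Set P := {p | p.1 = a}
/-- Row. -/
def row (s : W) : Set P := {p | p.2 = s}
/-- Branch. -/
def br (β : ℕ → ℕ) : Set P := range fun t => (dec β t, pre β t)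

theorem exists_code (b : ℕ → A) (F : ℕ → Set W) (hF : ∀ t, (F t).Finite) :
    ∃ β : ℕ → ℕ, dec β = b ∧ ∀ t, pre β t ∉ F t := by
  have hb : ∀ t, ∃ N : ℕ, ∀ s ∈ F t, s.sum < N := by
    intro t
    obtain ⟨N, hN⟩ := ((hF t).image List.sum).bddAbove
    exact ⟨N + 1, fun s hs => Nat.lt_succ_of_le (hN ⟨s, hs, rfl⟩)⟩
  choose N hN using hb
  refine ⟨fun i => Nat.bit (b (Nat.unpair i).1 (Nat.unpair i).2) (N i), ?_, ?_⟩
  · funext t k
    simp [dec]
  · intro t ht
    have h1 := hN t _ ht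
    have h2 : N t ≤ (pre (fun i => Nat.bit (b (Nat.unpair i).1 (Nat.unpair i).2) (N i)) t).sum := by
      have h3 : Nat.bit (b (Nat.unpair t).1 (Nat.unpair t).2) (N t) ∈
          pre (fun i => Nat.bit (b (Nat.unpair i).1 (Nat.unpair i).2) (N i)) t := by
        unfold pre
        rw [List.mem_map]
        exact ⟨t, List.mem_range.2 (by omega), rfl⟩
      have h4 := List.le_sum_of_mem h3
      refine le_trans ?_ h4
      rw [Nat.bit_val]
      omega
    omega

/-- The basic almost disjoint family, rows and branches. -/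
def RB : Set (Set P) := range row ∪ {m | ∃ β, Function.Injective (dec β) ∧ m = br β}

/-- All basic sets. -/
def base : Set (Set P) := RB ∪ range col

theorem col_inter_row (a : A) (s : W) : (col a ∩ row s).Finite := by
  refine (Set.finite_singleton (a, s)).subset ?_
  rintro ⟨x, y⟩ ⟨h1, h2⟩
  simp only [col, row, mem_ofPred_eq] at h1 h2
  simp [h1, h2]

theorem col_inter_br (a : A) {β : ℕ → ℕ} (hβ : Function.Injective (dec β)) :
    (col a ∩ br β).Finite := by
  refine Set.Subsingleton.finite ?_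
  rintro _ ⟨h1, ⟨t, rfl⟩⟩ _ ⟨h2, ⟨t', rfl⟩⟩
  simp only [col, mem_ofPred_eq] at h1 h2
  have : t = t' := hβ (h1.trans h2.symm)
  rw [this]

theorem row_inter_br (s : W) (β : ℕ → ℕ) : (row s ∩ br β).Finite := by
  refine Set.Subsingleton.finite ?_
  rintro _ ⟨h1, ⟨t, rfl⟩⟩ _ ⟨h2, ⟨t', rfl⟩⟩
  simp only [row, mem_ofPred_eq] at h1 h2
  have : t = t' := pre_injective β (h1.trans h2.symm)
  rw [this]

theorem br_inter_br {β β' : ℕ → ℕ} (h : β ≠ β') : (br β ∩ br β').Finite := by
  have : (Prod.snd '' (br β ∩ br β')).Finite := by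
    refine (finite_range_pre_inter h).subset ?_
    rintro _ ⟨_, ⟨⟨t, rfl⟩, ⟨t', ht'⟩⟩, rfl⟩
    exact ⟨⟨t, rfl⟩, ⟨t', by simpa using congrArg Prod.snd ht'⟩⟩
  refine this.of_finite_image ?_
  rintro _ ⟨⟨t, rfl⟩, _⟩ _ ⟨⟨t', rfl⟩, _⟩ h'
  have : t = t' := pre_injective β h'
  rw [this]

theorem row_inter_row {s s' : W} (h : s ≠ s') : (row s ∩ row s').Finite := by
  convert Set.finite_empty
  ext p
  simp only [row, mem_inter_iff, mem_ofPred_eq, mem_empty_iff_false, iff_false, not_and]
  intro h1 h2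
  exact h (h1.symm.trans h2)

theorem col_inter_col {s s' : A} (h : s ≠ s') : (col s ∩ col s').Finite := by
  convert Set.finite_empty
  ext p
  simp only [col, mem_inter_iff, mem_ofPred_eq, mem_empty_iff_false, iff_false, not_and]
  intro h1 h2
  exact h (h1.symm.trans h2)

theorem col_infinite (a : A) : (col a).Infinite := by
  have : Function.Injective (fun s : W => ((a, s) : P)) := fun _ _ h => (Prod.ext_iff.1 h).2
  refine (Set.infinite_range_of_injective this).mono ?_
  rintro _ ⟨s, rfl⟩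
  rfl

theorem row_infinite (s : W) : (row s).Infinite := by
  have : Function.Injective (fun a : A => ((a, s) : P)) := fun _ _ h => (Prod.ext_iff.1 h).1
  refine (Set.infinite_range_of_injective this).mono ?_
  rintro _ ⟨s, rfl⟩
  rfl

theorem br_infinite (β : ℕ → ℕ) : (br β).Infinite := by
  refine Set.infinite_range_of_injective ?_
  intro t t' h
  exact pre_injective β (Prod.ext_iff.1 h).2

/-- Almost disjoint families of infinite sets. -/
def AD (𝒜 : Set (Set P)) : Prop :=
  (∀ s ∈ 𝒜, s.Infinite) ∧ ∀ s ∈ 𝒜, ∀ t ∈ 𝒜, s ≠ t → (s ∩ t).Finite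

theorem base_AD : AD base := by
  constructor
  · rintro s ((⟨w, rfl⟩ | ⟨β, _, rfl⟩) | ⟨a, rfl⟩)
    · exact row_infinite w
    · exact br_infinite β
    · exact col_infinite a
  · rintro s ((⟨w, rfl⟩ | ⟨β, hβ, rfl⟩) | ⟨a, rfl⟩) t ((⟨w', rfl⟩ | ⟨β', hβ', rfl⟩) | ⟨a', rfl⟩) hst
    · exact row_inter_row (fun h => hst (by rw [h]))
    · exact row_inter_br _ _
    · rw [inter_comm]; exact col_inter_row _ _
    · rw [inter_comm]; exact row_inter_br _ _
    · exact br_inter_br (fun h => hst (by rw [h]))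
    · rw [inter_comm]; exact col_inter_br _ hβ
    · exact col_inter_row _ _
    · exact col_inter_br _ hβ'
    · exact col_inter_col (fun h => hst (by rw [h]))

theorem exists_mad : ∃ ℳ : Set (Set P), base ⊆ ℳ ∧ AD ℳ ∧
    ∀ Q : Set P, Q.Infinite → ∃ m ∈ ℳ, (m ∩ Q).Infinite := by
  obtain ⟨ℳ, hb, hmax⟩ := zorn_subset_nonempty {𝒜 : Set (Set P) | AD 𝒜} (by
    intro c hc hchain hne
    refine ⟨⋃₀ c, ?_, fun s hs => subset_sUnion_of_mem hs⟩
    constructor
    · rintro s ⟨𝒜, h𝒜, hs⟩
      exact (hc h𝒜).1 s hs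
    · rintro s ⟨𝒜, h𝒜, hs⟩ t ⟨ℬ, hℬ, ht⟩ hst
      rcases hchain.total h𝒜 hℬ with h | h
      · exact (hc hℬ).2 s (h hs) t ht hst
      · exact (hc h𝒜).2 s hs t (h ht) hst) base base_AD
  refine ⟨ℳ, hb, hmax.prop, ?_⟩
  intro Q hQ
  by_contra hcon
  push Not at hcon
  have hAD : AD (insert Q ℳ) := by
    constructor
    · rintro s (rfl | hs)
      · exact hQ
      · exact hmax.prop.1 s hs
    · rintro s (rfl | hs) t (rfl | ht) hst
      · exact absurd rfl hst
      · rw [inter_comm]; exact hcon t ht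
      · exact hcon s hs
      · exact hmax.prop.2 s hs t ht hst
  have hmem : Q ∈ ℳ := by
    have := hmax.le_of_ge hAD (Set.subset_insert Q ℳ)
    exact this (Set.mem_insert Q ℳ)
  have := hcon Q hmem
  rw [inter_self] at this
  exact hQ this

end Pool.Agent.Helper33
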