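import Mathlib
import Pool.Agent.Helper33.PsiSpace
import Pool.Agent.Helper33.TreeFam

set_option autoImplicit false

namespace Pool.Agent.Helper33

open Set Filter Topology

/-- The chosen maximal almost disjoint family. -/
noncomputable def MM : Set (Set P) := Classical.choose exists_mad

theorem MM_base : base ⊆ MM := (Classical.choose_spec exists_mad).1
theorem MM_AD : AD MM := (Classical.choose_spec exists_mad).2.1
theorem MM_max : ∀ Q : Set P, Q.Infinite → ∃ m ∈ MM, (m ∩ Q).Infinite :=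
  (Classical.choose_spec exists_mad).2.2

/-- The pseudocompact space. -/
abbrev KK : Type := Psi (fun m : MM => (m : Set P))

/-- The sets for the big space. -/
def MY : (MM ⊕ A) → Set (P × Bool)
  | Sum.inl m => {x | x.1 ∈ (m : Set P) ∧ (x.2 = false ∨ (m : Set P) ∈ RB)}
  | Sum.inr a => {x | x.1.1 = a ∧ x.2 = true}

/-- The big space. -/
abbrev YY : Type := Psi MY

theorem MM_pairwise : Pairwise fun i j : MM => ((i : Set P) ∩ (j : Set P)).Finite := by
  intro i j hij
  exact MM_AD.2 i i.2 j j.2 (fun h => hij (Subtype.ext h))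

theorem RB_inter_col {m : Set P} (hm : m ∈ RB) (a : A) : (m ∩ col a).Finite := by
  rcases hm with ⟨w, rfl⟩ | ⟨β, hβ, rfl⟩
  · rw [inter_comm]; exact col_inter_row _ _
  · rw [inter_comm]; exact col_inter_br _ hβ

theorem MY_inl_inr (m : MM) (a : A) : (MY (Sum.inl m) ∩ MY (Sum.inr a)).Finite := by
  by_cases hm : (m : Set P) ∈ RB
  · refine ((RB_inter_col hm a).image (fun p => (p, true))).subset ?_
    rintro ⟨p, b⟩ ⟨h1, h2⟩
    simp only [MY, mem_ofPred_eq] at h1 h2
    exact ⟨p, ⟨h1.1, h2.1⟩, by rw [h2.2]⟩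
  · convert! Set.finite_empty
    ext ⟨p, b⟩
    simp only [MY, mem_ofPred_eq, mem_inter_iff, mem_empty_iff_false, iff_false]
    rintro ⟨⟨_, h2⟩, ⟨_, h4⟩⟩
    rcases h2 with h2 | h2
    · rw [h2] at h4; cases h4
    · exact hm h2

theorem MY_pairwise : Pairwise fun i j => (MY i ∩ MY j).Finite := by
  intro i j hij
  rcases i with m | a <;> rcases j with m' | a'
  · have : ((m : Set P) ∩ (m' : Set P)).Finite := MM_pairwise (fun h => hij (by rw [h]))
    refine (this.prod (Set.finite_univ (α := Bool))).subset ?_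
    rintro ⟨p, b⟩ ⟨h1, h2⟩
    exact ⟨⟨h1.1, h2.1⟩, mem_univ _⟩
  · exact MY_inl_inr m a'
  · rw [inter_comm]; exact MY_inl_inr m' a
  · convert! Set.finite_empty
    ext ⟨p, b⟩
    simp only [MY, mem_ofPred_eq, mem_inter_iff, mem_empty_iff_false, iff_false]
    rintro ⟨⟨h1, _⟩, ⟨h3, _⟩⟩
    exact hij (by rw [← h1, ← h3])

instance : T35Space KK := Psi.t35 MM_pairwise
instance : T35Space YY := Psi.t35 MY_pairwise

/-- The column as an element of the maximal family. -/
def colM (a : A) : MM := ⟨col a, MM_base (Or.inr ⟨a, rfl⟩)⟩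

/-- The retraction. -/
def rr : YY → KK
  | Psi.pt x => Psi.pt x.1
  | Psi.lim (Sum.inl m) => Psi.lim m
  | Psi.lim (Sum.inr a) => Psi.lim (colM a)

/-- The inclusion. -/
def ii : KK → YY
  | Psi.pt p => Psi.pt (p, false)
  | Psi.lim m => Psi.lim (Sum.inl m)

theorem rr_ii (k : KK) : rr (ii k) = k := by
  cases k <;> rfl

theorem continuous_ii : Continuous ii := by
  rw [continuous_def]
  intro U hU
  rw [Psi.isOpen_def]
  intro m hm
  have h := (Psi.isOpen_def.1 hU) (Sum.inl m) hm
  refine (h.image Prod.fst).subset ?_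
  rintro p ⟨hp, hp'⟩
  exact ⟨(p, false), ⟨⟨hp, Or.inl rfl⟩, hp'⟩, rfl⟩

theorem continuous_rr : Continuous rr := by
  rw [continuous_def]
  intro U hU
  rw [Psi.isOpen_def]
  rintro (m | a) hm
  · have h := (Psi.isOpen_def.1 hU) m hm
    refine (h.prod (Set.finite_univ (α := Bool))).subset ?_
    rintro ⟨p, b⟩ ⟨hp, hp'⟩
    exact ⟨⟨hp.1, hp'⟩, mem_univ _⟩
  · have h := (Psi.isOpen_def.1 hU) (colM a) hm
    refine (h.prod (Set.finite_univ (α := Bool))).subset ?_
    rintro ⟨p, b⟩ ⟨hp, hp'⟩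
    exact ⟨⟨hp.1, hp'⟩, mem_univ _⟩

/-- Continuous functions vanishing on the retract. -/
abbrev C0 : Type := {h : C(YY, ℝ) // ∀ k, h (ii k) = 0}

/-- Evaluation. -/
def ev (y : YY) : C0 → ℝ := fun h => h.1 y

/-- The R-quotient of the big space by the retract. -/
abbrev XX : Type := range ev

/-- The quotient map. -/
def qq (y : YY) : XX := ⟨ev y, mem_range_self y⟩

theorem continuous_qq : Continuous qq := by
  refine Continuous.subtype_mk ?_ _
  exact continuous_pi fun h => h.1.continuous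

theorem qq_surj (x : XX) : ∃ y, qq y = x := by
  obtain ⟨_, ⟨y, rfl⟩⟩ := x
  exact ⟨y, rfl⟩

/-- base point in K -/
def k0 : KK := Psi.pt ((fun _ => false), [])

/-- The collapsed point. -/
def star : XX := qq (ii k0)

theorem qq_ii (k : KK) : qq (ii k) = star := by
  apply Subtype.ext
  funext h
  change h.1 (ii k) = h.1 (ii k0)
  rw [h.2, h.2]

/-- The part of `f` vanishing on the retract. -/
def hpart (f : C(YY, ℝ)) : C0 :=
  ⟨⟨fun y => f y - f (ii (rr y)), f.continuous.sub (f.continuous.comp (continuous_ii.comp continuous_rr))⟩,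
    fun k => by simp [rr_ii]⟩

/-- restriction to the left part -/
def lpart (F : C(YY ⊕ Unit, ℝ)) : C(YY, ℝ) := F.comp ⟨Sum.inl, continuous_inl⟩

theorem Xi_cont (F : C(YY ⊕ Unit, ℝ)) :
    Continuous (fun x : XX => x.val (hpart (lpart F)) + F (Sum.inr ())) := by
  have : Continuous (fun x : XX => x.val (hpart (lpart F))) :=
    (continuous_apply (hpart (lpart F))).comp continuous_subtype_val
  exact this.add continuous_const

/-- The homeomorphism of function spaces. -/
def ee : C(YY ⊕ Unit, ℝ) ≃ C(XX ⊕ KK, ℝ) where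
  toFun F := ⟨Sum.elim (fun x => x.val (hpart (lpart F)) + F (Sum.inr ())) (fun k => F (Sum.inl (ii k))),
    Continuous.sumElim (Xi_cont F) (F.continuous.comp (continuous_inl.comp continuous_ii))⟩
  invFun G := ⟨Sum.elim (fun y => G (Sum.inl (qq y)) - G (Sum.inl star) + G (Sum.inr (rr y)))
      (fun _ => G (Sum.inl star)),
    Continuous.sumElim (((G.continuous.comp (continuous_inl.comp continuous_qq)).sub
      continuous_const).add (G.continuous.comp (continuous_inr.comp continuous_rr))) continuous_const⟩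
  left_inv F := by
    ext z
    rcases z with y | u
    · change ((F (Sum.inl y) - F (Sum.inl (ii (rr y)))) + F (Sum.inr ())) -
        ((F (Sum.inl (ii k0)) - F (Sum.inl (ii (rr (ii k0))))) + F (Sum.inr ()))
        + F (Sum.inl (ii (rr y))) = F (Sum.inl y)
      rw [rr_ii]; ring
    · change ((F (Sum.inl (ii k0)) - F (Sum.inl (ii (rr (ii k0))))) + F (Sum.inr ())) = F (Sum.inr u)
      rw [rr_ii]; simp
  right_inv G := by
    ext z
    rcases z with x | k
    · obtain ⟨y, rfl⟩ := qq_surj x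
      change ((G (Sum.inl (qq y)) - G (Sum.inl star) + G (Sum.inr (rr y))) -
        (G (Sum.inl (qq (ii (rr y)))) - G (Sum.inl star) + G (Sum.inr (rr (ii (rr y))))))
        + G (Sum.inl star) = G (Sum.inl (qq y))
      rw [qq_ii, rr_ii]; ring
    · change G (Sum.inl (qq (ii k))) - G (Sum.inl star) + G (Sum.inr (rr (ii k))) = G (Sum.inr k)
      rw [qq_ii, rr_ii]; ring

theorem ee_cont : @Continuous C(YY ⊕ Unit, ℝ) (XX ⊕ KK → ℝ)
          (TopologicalSpace.induced (fun g : C(YY ⊕ Unit, ℝ) => (g : YY ⊕ Unit → ℝ)) inferInstance)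
          inferInstance (fun g => ((ee g : C(XX ⊕ KK, ℝ)) : XX ⊕ KK → ℝ)) := by
  let _i : TopologicalSpace C(YY ⊕ Unit, ℝ) :=
    TopologicalSpace.induced (fun g : C(YY ⊕ Unit, ℝ) => (g : YY ⊕ Unit → ℝ)) inferInstance
  have hev : ∀ z : YY ⊕ Unit, Continuous (fun F : C(YY ⊕ Unit, ℝ) => F z) := fun z =>
    (continuous_apply z).comp continuous_induced_dom
  refine continuous_pi fun z => ?_
  rcases z with x | k
  · obtain ⟨y, rfl⟩ := qq_surj x
    change Continuous fun F : C(YY ⊕ Unit, ℝ) =>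
      (F (Sum.inl y) - F (Sum.inl (ii (rr y)))) + F (Sum.inr ())
    exact ((hev _).sub (hev _)).add (hev _)
  · exact hev _

theorem ee_symm_cont : @Continuous C(XX ⊕ KK, ℝ) (YY ⊕ Unit → ℝ)
          (TopologicalSpace.induced (fun g : C(XX ⊕ KK, ℝ) => (g : XX ⊕ KK → ℝ)) inferInstance)
          inferInstance (fun g => ((ee.symm g : C(YY ⊕ Unit, ℝ)) : YY ⊕ Unit → ℝ)) := by
  let _i : TopologicalSpace C(XX ⊕ KK, ℝ) :=
    TopologicalSpace.induced (fun g : C(XX ⊕ KK, ℝ) => (g : XX ⊕ KK → ℝ)) inferInstance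
  have hev : ∀ z : XX ⊕ KK, Continuous (fun F : C(XX ⊕ KK, ℝ) => F z) := fun z =>
    (continuous_apply z).comp continuous_induced_dom
  refine continuous_pi fun z => ?_
  rcases z with y | u
  · change Continuous fun G : C(XX ⊕ KK, ℝ) =>
      G (Sum.inl (qq y)) - G (Sum.inl star) + G (Sum.inr (rr y))
    exact ((hev _).sub (hev _)).add (hev _)
  · exact hev _

end Pool.Agent.Helper33
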