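import Mathlib
import Pool.Agent.Helper33.SPCMain

set_option autoImplicit false

namespace Pool.Agent.Helper33

open Set Filter Topology

theorem t35_sum {X Y : Type} [TopologicalSpace X] [TopologicalSpace Y] [T35Space X] [T35Space Y] :
    T35Space (X ⊕ Y) := by
  have h1 : CompletelyRegularSpace (X ⊕ Y) := by
    refine ⟨fun z K hK hz => ?_⟩
    rcases z with x | y
    · obtain ⟨f, hf, hfx, hfK⟩ := CompletelyRegularSpace.completely_regular x (Sum.inl ⁻¹' K)
        (hK.preimage continuous_inl) hz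
      refine ⟨Sum.elim f (fun _ => 1), hf.sumElim continuous_const, hfx, ?_⟩
      rintro (x' | y') h
      · exact hfK h
      · rfl
    · obtain ⟨f, hf, hfx, hfK⟩ := CompletelyRegularSpace.completely_regular y (Sum.inr ⁻¹' K)
        (hK.preimage continuous_inr) hz
      refine ⟨Sum.elim (fun _ => 1) f, continuous_const.sumElim hf, hfx, ?_⟩
      rintro (x' | y') h
      · rfl
      · exact hfK h
  have h2 : T2Space (X ⊕ Y) := inferInstance
  exact { }

instance : T35Space (XX ⊕ KK) := t35_sum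
instance : T35Space (YY ⊕ Unit) := t35_sum

theorem KK_pc (g : C(KK, ℝ)) : ∃ M : ℝ, ∀ k, |g k| ≤ M := by
  by_contra hcon
  push Not at hcon
  have h1 : ∀ n : ℕ, ∃ p : P, (n : ℝ) < |g (Psi.pt p)| := by
    intro n
    obtain ⟨k, hk⟩ := hcon n
    cases k with
    | pt p => exact ⟨p, hk⟩
    | lim m =>
      have hop : IsOpen {k : KK | (n : ℝ) < |g k|} :=
        isOpen_lt continuous_const (g.continuous.abs)
      have hf := (Psi.isOpen_def.1 hop) m hk
      have hinf : (m : Set P).Infinite := MM_AD.1 m m.2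
      obtain ⟨p, hp⟩ := (hinf.sdiff hf).nonempty
      refine ⟨p, ?_⟩
      by_contra h
      exact hp.2 ⟨hp.1, h⟩
  choose p hp using h1
  have hQ : (range p).Infinite := by
    intro hfin
    obtain ⟨C, hC⟩ := (hfin.image (fun q => |g (Psi.pt q)|)).bddAbove
    obtain ⟨n, hn⟩ := exists_nat_gt C
    have := hC ⟨p n, ⟨n, rfl⟩, rfl⟩
    exact absurd (hp n) (not_lt.2 (this.trans hn.le))
  obtain ⟨m, hm, hmQ⟩ := MM_max _ hQ
  have hop : IsOpen {k : KK | |g k| < |g (Psi.lim ⟨m, hm⟩)| + 1} :=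
    isOpen_lt g.continuous.abs continuous_const
  have hf := (Psi.isOpen_def.1 hop) ⟨m, hm⟩ (by simp)
  obtain ⟨N, hN⟩ := exists_nat_gt (|g (Psi.lim ⟨m, hm⟩)| + 1)
  have h2 : (p '' (Set.Iio N)).Finite := (Set.finite_Iio N).image p
  obtain ⟨q, ⟨hq1, hq2⟩⟩ := (hmQ.sdiff (hf.union h2)).nonempty
  obtain ⟨hqm, ⟨n, rfl⟩⟩ := hq1
  simp only [mem_union, not_or] at hq2
  have h3 : |g (Psi.pt (p n))| < |g (Psi.lim ⟨m, hm⟩)| + 1 := by
    by_contra h
    exact hq2.1 ⟨hqm, h⟩
  have h4 : N ≤ n := by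
    by_contra h
    exact hq2.2 ⟨n, by simpa using h, rfl⟩
  have h5 := hp n
  have h6 : (N : ℝ) ≤ n := by exact_mod_cast h4
  linarith

theorem tendsto_star {f : A → YY}
    (h : ∀ g : C0, ∀ ε > 0, {a | ε ≤ |g.1 (f a)|}.Finite) :
    Tendsto (fun a => qq (f a)) cofinite (𝓝 star) := by
  rw [tendsto_subtype_rng, tendsto_pi_nhds]
  intro g
  change Tendsto (fun a => g.1 (f a)) cofinite (𝓝 (g.1 (ii k0)))
  rw [g.2, Metric.tendsto_nhds]
  intro ε hε
  rw [Filter.eventually_cofinite]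
  refine (h g ε hε).subset ?_
  intro a ha
  simpa using ha

/-- limit points of columns in the second copy -/
def dd (a : A) : YY := Psi.lim (Sum.inr a)
/-- isolated points in the second copy -/
def tt (a : A) (s : W) : YY := Psi.pt ((a, s), true)

theorem star_row (s : W) : Tendsto (fun a => qq (tt a s)) cofinite (𝓝 star) := by
  apply tendsto_star
  intro g ε hε
  have hop : IsOpen {y : YY | |g.1 y| < ε} := isOpen_lt g.1.continuous.abs continuous_const
  have hm : row s ∈ MM := MM_base (Or.inl (Or.inl ⟨s, rfl⟩))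
  have h0 : g.1 (Psi.lim (Sum.inl ⟨row s, hm⟩)) = 0 := g.2 (Psi.lim ⟨row s, hm⟩)
  have hf := (Psi.isOpen_def.1 hop) (Sum.inl ⟨row s, hm⟩) (by
    change |g.1 (Psi.lim (Sum.inl ⟨row s, hm⟩))| < ε
    rw [h0]; simpa using hε)
  refine (hf.image (fun x => x.1.1)).subset ?_
  intro a ha
  refine ⟨((a, s), true), ⟨⟨rfl, Or.inr (Or.inl ⟨s, rfl⟩)⟩, ?_⟩, rfl⟩
  intro h
  have ha' : ε ≤ |g.1 (tt a s)| := ha
  exact absurd ha' (not_le.2 h)

theorem star_dd : Tendsto (fun a => qq (dd a)) cofinite (𝓝 star) := by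
  apply tendsto_star
  intro g ε hε
  by_contra hinf
  have hinf' : {a | ε ≤ |g.1 (dd a)|}.Infinite := hinf
  let b := hinf'.natEmbedding
  have hb : ∀ t, ε ≤ |g.1 (dd (b t))| := fun t => (b t).2
  have hop : IsOpen {y : YY | ε / 2 < |g.1 y|} := isOpen_lt continuous_const g.1.continuous.abs
  have hF : ∀ t, {s : W | ¬ (ε / 2 < |g.1 (tt (b t) s)|)}.Finite := by
    intro t
    have hf := (Psi.isOpen_def.1 hop) (Sum.inr (b t : A)) (by
      have := hb t
      change ε / 2 < |g.1 (dd (b t))|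
      linarith)
    refine (hf.image (fun x => x.1.2)).subset ?_
    intro s hs
    exact ⟨(((b t : A), s), true), ⟨⟨rfl, rfl⟩, hs⟩, rfl⟩
  obtain ⟨β, hβ1, hβ2⟩ := exists_code (fun t => (b t : A)) _ hF
  have hinj : Function.Injective (dec β) := by
    rw [hβ1]
    exact Subtype.val_injective.comp b.injective
  have hm : br β ∈ MM := MM_base (Or.inl (Or.inr ⟨β, hinj, rfl⟩))
  have h0 : g.1 (Psi.lim (Sum.inl ⟨br β, hm⟩)) = 0 := g.2 (Psi.lim ⟨br β, hm⟩)
  have hop2 : IsOpen {y : YY | |g.1 y| < ε / 2} := isOpen_lt g.1.continuous.abs continuous_const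
  have hf := (Psi.isOpen_def.1 hop2) (Sum.inl ⟨br β, hm⟩) (by
    change |g.1 (Psi.lim (Sum.inl ⟨br β, hm⟩))| < ε / 2
    rw [h0]; simpa using hε)
  have hinf2 : (range fun t => (((dec β t, pre β t), true) : P × Bool)).Infinite := by
    refine Set.infinite_range_of_injective ?_
    intro t t' h
    exact pre_injective β (Prod.ext_iff.1 (Prod.ext_iff.1 h).1).2
  refine hinf2 (hf.subset ?_)
  rintro _ ⟨t, rfl⟩
  refine ⟨⟨⟨t, rfl⟩, Or.inr (Or.inr ⟨β, hinj, rfl⟩)⟩, ?_⟩
  intro h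
  have h1 : ε / 2 < |g.1 (tt (b t) (pre β t))| := by
    by_contra h'
    exact hβ2 t h'
  have h2 : |g.1 (tt (dec β t) (pre β t))| < ε / 2 := h
  rw [hβ1] at h2
  exact absurd h1 (not_lt.2 h2.le)

theorem pc_of_compact {X : Type} [TopologicalSpace X] {S : Set X} (hS : IsCompact S) (f : C(S, ℝ)) :
    ∃ M : ℝ, ∀ a, |f a| ≤ M := by
  have : CompactSpace S := isCompact_iff_compactSpace.1 hS
  exact ⟨‖f‖, fun a => f.norm_coe_le_norm a⟩

theorem source_spc : ∃ S : ℕ → Set (XX ⊕ KK), (⋃ n, S n) = Set.univ ∧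
        ∀ n, ∀ f : C(S n, ℝ), ∃ M : ℝ, ∀ a, |f a| ≤ M := by
  let T : Option (Option W) → Set (XX ⊕ KK) := fun o =>
    match o with
    | none => range Sum.inr
    | some none => Sum.inl '' (insert star (range fun a => qq (dd a)))
    | some (some s) => Sum.inl '' (insert star (range fun a => qq (tt a s)))
  obtain ⟨e, he⟩ := exists_surjective_nat (Option (Option W))
  refine ⟨fun n => T (e n), ?_, ?_⟩
  · rw [Set.eq_univ_iff_forall]
    rintro (x | k)
    · obtain ⟨y, rfl⟩ := qq_surj x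
      cases y with
      | pt x =>
        obtain ⟨⟨a, s⟩, b⟩ := x
        cases b
        · obtain ⟨n, hn⟩ := he (some none)
          rw [mem_iUnion]
          refine ⟨n, ?_⟩
          rw [hn]
          exact ⟨_, Or.inl (qq_ii (Psi.pt (a, s))), rfl⟩
        · obtain ⟨n, hn⟩ := he (some (some s))
          rw [mem_iUnion]
          refine ⟨n, ?_⟩
          rw [hn]
          exact ⟨_, Or.inr ⟨a, rfl⟩, rfl⟩
      | lim i =>
        obtain ⟨n, hn⟩ := he (some none)
        rw [mem_iUnion]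
        refine ⟨n, ?_⟩
        rw [hn]
        rcases i with m | a
        · exact ⟨_, Or.inl (qq_ii (Psi.lim m)), rfl⟩
        · exact ⟨_, Or.inr ⟨a, rfl⟩, rfl⟩
    · obtain ⟨n, hn⟩ := he none
      rw [mem_iUnion]
      refine ⟨n, ?_⟩
      rw [hn]
      exact ⟨k, rfl⟩
  · intro n
    beta_reduce
    generalize e n = o
    rcases o with _ | _ | s
    · intro f
      let j : C(KK, (range Sum.inr : Set (XX ⊕ KK))) := ⟨fun k => ⟨Sum.inr k, ⟨k, rfl⟩⟩,
        Continuous.subtype_mk continuous_inr _⟩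
      obtain ⟨M, hM⟩ := KK_pc (f.comp j)
      refine ⟨M, ?_⟩
      rintro ⟨_, ⟨k, rfl⟩⟩
      exact hM k
    · exact pc_of_compact (star_dd.isCompact_insert_range_of_cofinite.image continuous_inl)
    · exact pc_of_compact ((star_row s).isCompact_insert_range_of_cofinite.image continuous_inl)

end Pool.Agent.Helper33
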