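import Mathlib
import Pool.Agent.Helper33.SPCMain2

set_option autoImplicit false

namespace Pool.Agent.Helper33

open Set Filter Topology

/-- Locally constant functions on a pseudocompact subspace are bounded. -/
theorem bdd_of_loc {X : Type} [TopologicalSpace X] {S : Set X}
    (hS : ∀ f : C(S, ℝ), ∃ M : ℝ, ∀ a, |f a| ≤ M) (F : X → ℝ)
    (hF : ∀ z ∈ S, ∃ U : Set X, IsOpen U ∧ z ∈ U ∧ ∀ w ∈ U, w ∈ S → F w = F z) :
    ∃ M : ℝ, ∀ z ∈ S, |F z| ≤ M := by
  have hlc : IsLocallyConstant (fun z : S => F z) := by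
    rw [IsLocallyConstant.iff_exists_open]
    rintro ⟨z, hz⟩
    obtain ⟨U, hU, hzU, hUF⟩ := hF z hz
    exact ⟨Subtype.val ⁻¹' U, hU.preimage continuous_subtype_val, hzU, fun w hw => hUF w hw w.2⟩
  obtain ⟨M, hM⟩ := hS ⟨_, hlc.continuous⟩
  exact ⟨M, fun z hz => hM ⟨z, hz⟩⟩

theorem not_countable_A : ¬ Countable A := by
  classical
  intro h
  obtain ⟨f, hf⟩ := h.exists_injective_nat
  refine Function.cantor_injective (fun s : Set ℕ => f (fun n => decide (n ∈ s))) ?_
  intro s t hst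
  ext n
  have := congrFun (hf hst) n
  simpa using this

theorem target_not_spc : ¬ ∃ S : ℕ → Set (YY ⊕ Unit), (⋃ n, S n) = Set.univ ∧
        ∀ n, ∀ f : C(S n, ℝ), ∃ M : ℝ, ∀ a, |f a| ≤ M := by
  classical
  rintro ⟨S, hcov, hpc⟩
  -- one of the sets contains uncountably many column limits
  have hunc : ∃ n, ¬ {a : A | (Sum.inl (dd a) : YY ⊕ Unit) ∈ S n}.Countable := by
    by_contra hcon
    push Not at hcon
    have h1 : (⋃ n, {a : A | (Sum.inl (dd a) : YY ⊕ Unit) ∈ S n}).Countable :=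
      Set.countable_iUnion hcon
    have h2 : (⋃ n, {a : A | (Sum.inl (dd a) : YY ⊕ Unit) ∈ S n}) = Set.univ := by
      rw [Set.eq_univ_iff_forall]
      intro a
      have : (Sum.inl (dd a) : YY ⊕ Unit) ∈ ⋃ n, S n := by rw [hcov]; trivial
      rw [mem_iUnion] at this ⊢
      exact this
    rw [h2, Set.countable_univ_iff] at h1
    exact not_countable_A h1
  obtain ⟨n, hn⟩ := hunc
  have hS := hpc n
  generalize S n = S0 at hn hS
  clear hcov hpc
  let N : A → Set W := fun a => {s | (Sum.inl (tt a s) : YY ⊕ Unit) ∈ S0}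
  let A1 : Set A := {a : A | (Sum.inl (dd a) : YY ⊕ Unit) ∈ S0}
  -- only finitely many column limits are isolated
  have hG : {a | a ∈ A1 ∧ (N a).Finite}.Finite := by
    by_contra hinf
    have hinf' : {a | a ∈ A1 ∧ (N a).Finite}.Infinite := hinf
    let b := hinf'.natEmbedding
    let φ : A → ℝ := Function.extend (fun t => (b t : A)) (fun t => (t : ℝ)) (fun _ => 0)
    have hbinj : Function.Injective (fun t => (b t : A)) := Subtype.val_injective.comp b.injective
    have hφ : ∀ t, φ (b t) = t := fun t => hbinj.extend_apply _ _ t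
    have hφ0 : ∀ a, (¬ ∃ t, (b t : A) = a) → φ a = 0 := fun a ha =>
      Function.extend_apply' _ _ _ ha
    let F : YY ⊕ Unit → ℝ := fun z => match z with
      | Sum.inl (Psi.lim (Sum.inr a)) => φ a
      | _ => 0
    obtain ⟨M, hM⟩ := bdd_of_loc hS F (by
      rintro (y | u) hz
      · cases y with
        | pt x =>
          refine ⟨Sum.inl '' {Psi.pt x}, isOpenMap_inl _ (Psi.isOpen_pt x), ⟨_, rfl, rfl⟩, ?_⟩
          rintro _ ⟨_, rfl, rfl⟩ _
          rfl
        | lim i =>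
          rcases i with m | a
          · refine ⟨Sum.inl '' (Psi.nb (Sum.inl m) ∅), isOpenMap_inl _ (Psi.isOpen_nb _ (by simp)),
              ⟨_, Or.inl rfl, rfl⟩, ?_⟩
            rintro _ ⟨_, (rfl | ⟨x, hx, rfl⟩), rfl⟩ _
            · rfl
            · rfl
          · by_cases ha : ∃ t, (b t : A) = a
            · obtain ⟨t, rfl⟩ := ha
              have hfin : (N (b t)).Finite := (b t).2.2
              refine ⟨Sum.inl '' (Psi.nb (Sum.inr (b t : A)) {x | x.1.2 ∈ N (b t)}),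
                isOpenMap_inl _ (Psi.isOpen_nb _ ?_), ⟨_, Or.inl rfl, rfl⟩, ?_⟩
              · refine (hfin.image (fun s => ((((b t : A), s), true) : P × Bool))).subset ?_
                rintro ⟨⟨a, s⟩, c⟩ ⟨⟨h1, h2⟩, h3⟩
                simp only at h1 h2
                subst h1 h2
                exact ⟨s, h3, rfl⟩
              · rintro _ ⟨_, (rfl | ⟨⟨⟨a, s⟩, c⟩, ⟨⟨h1, h2⟩, h3⟩, rfl⟩), rfl⟩ hw
                · rfl
                · exfalso
                  simp only at h1 h2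
                  subst h1 h2
                  exact h3 hw
            · refine ⟨Sum.inl '' (Psi.nb (Sum.inr a) ∅), isOpenMap_inl _ (Psi.isOpen_nb _ (by simp)),
                ⟨_, Or.inl rfl, rfl⟩, ?_⟩
              rintro _ ⟨_, (rfl | ⟨x, hx, rfl⟩), rfl⟩ _
              · rfl
              · exact (hφ0 a ha).symm
      · refine ⟨range Sum.inr, isOpen_range_inr, ⟨u, rfl⟩, ?_⟩
        rintro _ ⟨_, rfl⟩ _
        rfl)
    obtain ⟨k, hk⟩ := exists_nat_gt M
    have h1 := hM (Sum.inl (dd (b k))) (b k).2.1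
    have h2 : F (Sum.inl (dd (b k))) = k := hφ k
    rw [h2, Nat.abs_cast] at h1
    linarith
  let A2 : Set A := {a | a ∈ A1 ∧ (N a).Infinite}
  have hA2 : ¬ A2.Countable := by
    intro hc
    apply hn
    refine (hc.union hG.countable).mono ?_
    intro a ha
    by_cases h : (N a).Finite
    · exact Or.inr ⟨ha, h⟩
    · exact Or.inl ⟨ha, h⟩
  let U : W → Set A := fun s => {a | a ∈ A2 ∧ s ∈ N a}
  let Z : Set W := {s | ¬ (U s).Countable}
  have hZ : Z.Infinite := by
    intro hfin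
    have hc : (⋃ s ∈ Zᶜ, U s).Countable := by
      refine Set.Countable.biUnion (Set.to_countable _) ?_
      intro s hs
      by_contra h
      exact hs h
    have : ∃ a ∈ A2, a ∉ (⋃ s ∈ Zᶜ, U s) := by
      by_contra h
      push Not at h
      exact hA2 (hc.mono h)
    obtain ⟨a, ha, ha'⟩ := this
    refine ha.2 (hfin.subset ?_)
    intro s hs
    by_contra hsZ
    exact ha' (mem_biUnion hsZ ⟨ha, hs⟩)
  -- choose the subset of rows
  have hZ' : ∃ Z' ⊆ Z, Z'.Infinite ∧ ∃ bad : W → Set A, (∀ s, (bad s).Finite) ∧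
      ∀ β, Function.Injective (dec β) →
        {s | s ∈ Z' ∧ ∃ t, pre β t = s ∧ dec β t ∉ bad s}.Finite := by
    by_cases h : ∃ β, (Z ∩ range (pre β)).Infinite
    · obtain ⟨β0, hβ0⟩ := h
      refine ⟨Z ∩ range (pre β0), inter_subset_left, hβ0,
        fun s => {a | ∃ t, pre β0 t = s ∧ dec β0 t = a}, ?_, ?_⟩
      · intro s
        refine Set.Subsingleton.finite ?_
        rintro _ ⟨t, ht, rfl⟩ _ ⟨t', ht', rfl⟩
        rw [pre_injective β0 (ht.trans ht'.symm)]
      · intro β _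
        by_cases hb : β = β0
        · subst hb
          convert! Set.finite_empty
          ext s
          simp only [mem_ofPred_eq, mem_empty_iff_false, iff_false]
          rintro ⟨_, t, ht, ht'⟩
          exact ht' ⟨t, ht, rfl⟩
        · refine (finite_range_pre_inter hb).subset ?_
          rintro s ⟨⟨_, hs⟩, t, ht, _⟩
          exact ⟨⟨t, ht⟩, hs⟩
    · push Not at h
      refine ⟨Z, subset_rfl, hZ, fun _ => ∅, fun _ => Set.finite_empty, ?_⟩
      intro β _
      refine (h β).subset ?_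
      rintro s ⟨hs, t, ht, _⟩
      exact ⟨hs, ⟨t, ht⟩⟩
  obtain ⟨Z', hZ'Z, hZ'inf, bad, hbad, hZ'fin⟩ := hZ'
  -- choose the sequence
  obtain ⟨c, hc1, hc2⟩ := exists_seq_of_forall_finset_exists
    (fun p : P => p.2 ∈ Z' ∧ p.1 ∈ U p.2 ∧ p.1 ∉ bad p.2)
    (fun p q : P => p.1 ≠ q.1 ∧ p.2 ≠ q.2) (by
      intro s _
      obtain ⟨w, hw, hw'⟩ := (hZ'inf.sdiff (s.finite_toSet.image Prod.snd)).nonempty
      have hU : (U w).Infinite := fun hf => (hZ'Z hw) hf.countable
      obtain ⟨a, ha, ha'⟩ := (hU.sdiff ((s.finite_toSet.image Prod.fst).union (hbad w))).nonempty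
      refine ⟨(a, w), ⟨hw, ha, fun h => ha' (Or.inr h)⟩, ?_⟩
      intro x hx
      refine ⟨fun h => ha' (Or.inl ⟨x, hx, h⟩), fun h => hw' ⟨x, hx, h⟩⟩)
  have hc3 : Function.Injective (fun k => (c k).1) := by
    intro i j hij
    rcases lt_trichotomy i j with h | h | h
    · exact absurd hij (hc2 i j h).1
    · exact h
    · exact absurd hij.symm (hc2 j i h).1
  have hc4 : Function.Injective (fun k => (c k).2) := by
    intro i j hij
    rcases lt_trichotomy i j with h | h | h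
    · exact absurd hij (hc2 i j h).2
    · exact h
    · exact absurd hij.symm (hc2 j i h).2
  have hcinj : Function.Injective c := fun i j h => hc3 (by simp [h])
  have hRB : ∀ m ∈ RB, (m ∩ range c).Finite := by
    rintro m (⟨w, rfl⟩ | ⟨β, hβ, rfl⟩)
    · refine Set.Subsingleton.finite ?_
      rintro _ ⟨h1, ⟨k, rfl⟩⟩ _ ⟨h2, ⟨k', rfl⟩⟩
      have : k = k' := hc4 (h1.trans h2.symm)
      rw [this]
    · have h1 : {k | c k ∈ br β}.Finite := by
        refine Set.Finite.of_finite_image (f := fun k => (c k).2) ?_ hc4.injOn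
        refine (hZ'fin β hβ).subset ?_
        rintro _ ⟨k, ⟨t, ht⟩, rfl⟩
        refine ⟨(hc1 k).1, t, congrArg Prod.snd ht, ?_⟩
        have : dec β t = (c k).1 := congrArg Prod.fst ht
        rw [this]
        exact (hc1 k).2.2
      refine (h1.image c).subset ?_
      rintro _ ⟨h2, ⟨k, rfl⟩⟩
      exact ⟨k, h2, rfl⟩
  have hcol : ∀ a, (col a ∩ range c).Finite := by
    intro a
    refine Set.Subsingleton.finite ?_
    rintro _ ⟨h1, ⟨k, rfl⟩⟩ _ ⟨h2, ⟨k', rfl⟩⟩
    have : k = k' := hc3 (h1.trans h2.symm)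
    rw [this]
  let ψ : P → ℝ := Function.extend c (fun t => (t : ℝ)) (fun _ => 0)
  have hψ : ∀ t, ψ (c t) = t := fun t => hcinj.extend_apply _ _ t
  have hψ0 : ∀ p, p ∉ range c → ψ p = 0 := fun p hp =>
    Function.extend_apply' _ _ _ (fun ⟨t, ht⟩ => hp ⟨t, ht⟩)
  let F : YY ⊕ Unit → ℝ := fun z => match z with
      | Sum.inl (Psi.pt (p, true)) => ψ p
      | _ => 0
  have hF0 : ∀ x : P × Bool, ¬ (x.2 = true ∧ x.1 ∈ range c) → F (Sum.inl (Psi.pt x)) = 0 := by
    rintro ⟨p, c'⟩ h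
    cases c'
    · rfl
    · exact hψ0 p (fun h' => h ⟨rfl, h'⟩)
  have hMY : ∀ i, (MY i ∩ {x | x.2 = true ∧ x.1 ∈ range c}).Finite := by
    rintro (m | a)
    · by_cases hm : (m : Set P) ∈ RB
      · refine ((hRB m hm).image (fun p => (p, true))).subset ?_
        rintro ⟨p, b⟩ ⟨h1, h2⟩
        exact ⟨p, ⟨h1.1, h2.2⟩, by rw [← h2.1]⟩
      · convert! Set.finite_empty
        ext ⟨p, b⟩
        simp only [mem_inter_iff, mem_empty_iff_false, iff_false]
        rintro ⟨⟨_, h3⟩, ⟨h2, _⟩⟩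
        rcases h3 with h3 | h3
        · rw [h3] at h2; cases h2
        · exact hm h3
    · refine ((hcol a).image (fun p => (p, true))).subset ?_
      rintro ⟨p, b⟩ ⟨h1, h2⟩
      exact ⟨p, ⟨h1.1, h2.2⟩, by rw [← h2.1]⟩
  obtain ⟨M, hM⟩ := bdd_of_loc hS F (by
      rintro (y | u) hz
      · cases y with
        | pt x =>
          refine ⟨Sum.inl '' {Psi.pt x}, isOpenMap_inl _ (Psi.isOpen_pt x), ⟨_, rfl, rfl⟩, ?_⟩
          rintro _ ⟨_, rfl, rfl⟩ _
          rfl
        | lim i =>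
          refine ⟨Sum.inl '' (Psi.nb i {x | x.2 = true ∧ x.1 ∈ range c}),
            isOpenMap_inl _ (Psi.isOpen_nb _ (hMY i)), ⟨_, Or.inl rfl, rfl⟩, ?_⟩
          rintro _ ⟨_, (rfl | ⟨x, hx, rfl⟩), rfl⟩ _
          · rfl
          · exact hF0 x hx.2
      · refine ⟨range Sum.inr, isOpen_range_inr, ⟨u, rfl⟩, ?_⟩
        rintro _ ⟨_, rfl⟩ _
        rfl)
  obtain ⟨k, hk⟩ := exists_nat_gt M
  have h1 := hM (Sum.inl (tt (c k).1 (c k).2)) (hc1 k).2.1.2
  have h2 : F (Sum.inl (tt (c k).1 (c k).2)) = k := hψ k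
  rw [h2, Nat.abs_cast] at h1
  linarith

end Pool.Agent.Helper33
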